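import Pool.Agent.W982.AT.RedDefs

/-!
# The adjacency matrix of the graph of a formula is computable in polynomial time
-/

namespace Pool.Agent.W982.AT

open Pool.Agent.NPC
open Pool.Agent.W982.Hole (F3 lit)

section

variable {α : Type} [TEnc α]

theorem pa_bn {b : α → Bool} (hb : Poly b) : Poly (fun a => bn (b a)) := by
  refine (NPC.Poly.cond hb (NPC.Poly.const 1) (NPC.Poly.const 0)).congr fun a => ?_
  cases b a <;> rfl

theorem pa_k {m : α → ℕ} (c d : ℕ) (hm : Poly m) : Poly (fun a => c + d * m a) :=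
  NPC.Poly.add (NPC.Poly.const c) (NPC.Poly.mul (NPC.Poly.const d) hm)

theorem pa_nv {m : α → ℕ} (hm : Poly m) : Poly (fun a => nv (m a)) :=
  NPC.Poly.add (pa_k 8 31 hm) (NPC.Poly.mul (NPC.Poly.const 18) (NPC.Poly.mul hm hm))

theorem pa_nOcc {m t : α → ℕ} {h : α → Bool} (hm : Poly m) (ht : Poly t) (hh : Poly h) :
    Poly (fun a => nOcc (m a) (t a) (h a)) :=
  NPC.Poly.add (NPC.Poly.add (pa_k 8 25 hm) (NPC.Poly.mul (NPC.Poly.const 2) ht)) (pa_bn hh)

theorem pa_nPq {m t : α → ℕ} {h : α → Bool} (hm : Poly m) (ht : Poly t) (hh : Poly h) :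
    Poly (fun a => nPq (m a) (t a) (h a)) :=
  NPC.Poly.add (NPC.Poly.add (pa_k 8 19 hm) (NPC.Poly.mul (NPC.Poly.const 2) ht)) (pa_bn hh)

theorem pa_nZ {m t : α → ℕ} {h : α → Bool} (hm : Poly m) (ht : Poly t) (hh : Poly h) :
    Poly (fun a => nZ (m a) (t a) (h a)) :=
  NPC.Poly.add (NPC.Poly.add (pa_k 8 17 hm) (NPC.Poly.mul (NPC.Poly.const 2) ht)) (pa_bn hh)

theorem pa_nW {m x t : α → ℕ} {h : α → Bool} (hm : Poly m) (hx : Poly x) (ht : Poly t)
    (hh : Poly h) : Poly (fun a => nW (m a) (x a) (t a) (h a)) :=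
  NPC.Poly.add (NPC.Poly.add (pa_k 8 31 hm) (NPC.Poly.mul (NPC.Poly.const 2)
    (NPC.Poly.add (NPC.Poly.mul hx (NPC.Poly.mul (NPC.Poly.const 3) hm)) ht))) (pa_bn hh)

theorem pa_nBr {m t : α → ℕ} {f h : α → Bool} (hm : Poly m) (ht : Poly t) (hf : Poly f)
    (hh : Poly h) : Poly (fun a => nBr (m a) (t a) (f a) (h a)) :=
  NPC.Poly.add (NPC.Poly.add (NPC.Poly.add (pa_k 8 5 hm) (NPC.Poly.mul (NPC.Poly.const 4) ht))
    (NPC.Poly.mul (NPC.Poly.const 2) (pa_bn hf))) (pa_bn hh)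

theorem pa_add {n : α → ℕ} (hn : Poly n) (c : ℕ) : Poly (fun a => n a + c) :=
  NPC.Poly.add hn (NPC.Poly.const c)

theorem pa_nil {β : Type} [TEnc β] : Poly (fun _ : α => ([] : List β)) := NPC.Poly.const []

theorem pa_row {m j : α → ℕ} (hm : Poly m) (hj : Poly j) :
    Poly (fun a => rowEdges (m a) (j a)) := by
  have h8 := pa_k 8 5 hj
  have h3 : Poly (fun a => 3 * j a) := NPC.Poly.mul (NPC.Poly.const 3) hj
  have hT : Poly (fun _ : α => true) := NPC.Poly.const true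
  have hF : Poly (fun _ : α => false) := NPC.Poly.const false
  exact Poly.cons (Poly.pair h8 (pa_nPq hm h3 hT)) (Poly.cons (Poly.pair h8 (pa_nPq hm (pa_add h3 1) hT))
    (Poly.cons (Poly.pair h8 (pa_nPq hm (pa_add h3 2) hT))
    (Poly.cons (Poly.pair (pa_add h8 1) (pa_nPq hm h3 hT))
    (Poly.cons (Poly.pair (pa_add h8 1) (pa_nPq hm h3 hF))
    (Poly.cons (Poly.pair (pa_add h8 1) (pa_nZ hm hj hF))
    (Poly.cons (Poly.pair (pa_add h8 2) (pa_nPq hm (pa_add h3 1) hT))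
    (Poly.cons (Poly.pair (pa_add h8 2) (pa_nPq hm (pa_add h3 1) hF))
    (Poly.cons (Poly.pair (pa_add h8 2) (pa_nZ hm hj hF))
    (Poly.cons (Poly.pair (pa_add h8 3) (pa_nPq hm (pa_add h3 1) hT))
    (Poly.cons (Poly.pair (pa_add h8 3) (pa_nPq hm (pa_add h3 1) hF))
    (Poly.cons (Poly.pair (pa_add h8 3) (pa_nZ hm hj hT))
    (Poly.cons (Poly.pair (pa_add h8 4) (pa_nPq hm (pa_add h3 2) hT))
    (Poly.cons (Poly.pair (pa_add h8 4) (pa_nPq hm (pa_add h3 2) hF))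
    (Poly.cons (Poly.pair (pa_add h8 4) (pa_nZ hm hj hT)) pa_nil))))))))))))))

theorem pa_next {m t : α → ℕ} (hm : Poly m) (ht : Poly t) :
    Poly (fun a => (t a + 1) % (3 * m a)) :=
  NPC.Poly.mod (pa_add ht 1) (NPC.Poly.mul (NPC.Poly.const 3) hm)

theorem pa_cp {m t : α → ℕ} {l : α → Lit ℕ} (hm : Poly m) (ht : Poly t) (hl : Poly l) :
    Poly (fun a => cpEdges (m a) (t a) (l a)) := by
  have hT : Poly (fun _ : α => true) := NPC.Poly.const true
  have hF : Poly (fun _ : α => false) := NPC.Poly.const false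
  have hs := Poly.fst hl
  have hn := NPC.Poly.not hs
  exact Poly.cons (Poly.pair (pa_nBr hm ht hF hF) (pa_nBr hm ht hF hT))
    (Poly.cons (Poly.pair (pa_nBr hm ht hT hF) (pa_nBr hm ht hT hT))
    (Poly.cons (Poly.pair (pa_nBr hm ht hF hF) (pa_nOcc hm ht hF))
    (Poly.cons (Poly.pair (pa_nBr hm ht hF hF) (pa_nOcc hm ht hT))
    (Poly.cons (Poly.pair (pa_nBr hm ht hF hT) (pa_nPq hm ht hs))
    (Poly.cons (Poly.pair (pa_nBr hm ht hF hT) (pa_nPq hm ht hn))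
    (Poly.cons (Poly.pair (pa_nBr hm ht hT hF) (pa_nOcc hm ht hF))
    (Poly.cons (Poly.pair (pa_nBr hm ht hT hF) (pa_nPq hm ht hn))
    (Poly.cons (Poly.pair (pa_nBr hm ht hT hT) (pa_nPq hm ht hs))
    (Poly.cons (Poly.pair (pa_nBr hm ht hT hT) (pa_nOcc hm ht hT))
    (Poly.cons (Poly.pair (pa_nOcc hm ht hT) (pa_nW hm (Poly.snd hl) (pa_next hm ht) hF))
      pa_nil))))))))))

theorem pa_w {m t x : α → ℕ} {l : α → Lit ℕ} (hm : Poly m) (ht : Poly t) (hl : Poly l)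
    (hx : Poly x) : Poly (fun a => wEdges (m a) (t a) (l a) (x a)) := by
  have hT : Poly (fun _ : α => true) := NPC.Poly.const true
  have hF : Poly (fun _ : α => false) := NPC.Poly.const false
  exact Poly.cons (Poly.pair (pa_nW hm hx ht hF) (pa_nW hm hx ht hT))
    (Poly.cons (Poly.pair (pa_nW hm hx ht hT)
      (NPC.Poly.ite (NPC.Poly.decide_eq (Poly.snd hl) hx) (pa_nOcc hm ht hF)
        (pa_nW hm hx (pa_next hm ht) hF))) pa_nil)

theorem pa_t {m t : α → ℕ} {l : α → Lit ℕ} (hm : UPoly m) (ht : Poly t) (hl : Poly l) :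
    Poly (fun a => tEdges (m a) (t a) (l a)) := by
  refine Poly.append (pa_cp hm.toPoly ht hl) ?_
  exact Poly.flatMap (F := fun (a : α) (x : ℕ) => wEdges (m a) (t a) (l a) x)
    (UPoly.mul (UPoly.const 3) hm).range
    (pa_w (hm.comp (Poly.fst Poly.id)).toPoly (ht.comp (Poly.fst Poly.id))
      (hl.comp (Poly.fst Poly.id)) (Poly.snd Poly.id))

end

theorem pa_edges : Poly edges := by
  have hn : UPoly (fun φ : F3 => φ.length) := UPoly.length Poly.id
  refine Poly.append (Poly.append (NPC.Poly.const _) ?_) ?_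
  · have hr : UPoly (fun φ : F3 => 14 * φ.length + 18 * (φ.length * φ.length)) :=
      UPoly.add (UPoly.mul (UPoly.const 14) hn) (UPoly.mul (UPoly.const 18) (UPoly.mul hn hn))
    exact NPC.Poly.map (F := fun (φ : F3) (x : ℕ) => (8 + 17 * φ.length + x, 0)) hr.range
      (Poly.pair (NPC.Poly.add (pa_k 8 17 (hn.comp (Poly.fst Poly.id)).toPoly) (Poly.snd Poly.id))
        (NPC.Poly.const 0))
  · have h1 : UPoly (fun p : F3 × (Lit ℕ × Lit ℕ × Lit ℕ) × ℕ => p.1.length) :=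
      hn.comp (Poly.fst Poly.id)
    have h2 : Poly (fun p : F3 × (Lit ℕ × Lit ℕ × Lit ℕ) × ℕ => p.2.2) :=
      Poly.snd (Poly.snd Poly.id)
    have h3 : Poly (fun p : F3 × (Lit ℕ × Lit ℕ × Lit ℕ) × ℕ => 3 * p.2.2) :=
      NPC.Poly.mul (NPC.Poly.const 3) h2
    have h4 : Poly (fun p : F3 × (Lit ℕ × Lit ℕ × Lit ℕ) × ℕ => p.2.1) :=
      Poly.fst (Poly.snd Poly.id)
    exact Poly.flatMap (F := fun (φ : F3) (c : (Lit ℕ × Lit ℕ × Lit ℕ) × ℕ) =>
      rowEdges φ.length c.2 ++ (tEdges φ.length (3 * c.2) c.1.1 ++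
        (tEdges φ.length (3 * c.2 + 1) c.1.2.1 ++ tEdges φ.length (3 * c.2 + 2) c.1.2.2)))
      (Poly.zipIdx Poly.id)
      (Poly.append (pa_row h1.toPoly h2) (Poly.append (pa_t h1 h3 (Poly.fst h4))
        (Poly.append (pa_t h1 (pa_add h3 1) (Poly.fst (Poly.snd h4)))
          (pa_t h1 (pa_add h3 2) (Poly.snd (Poly.snd h4))))))

theorem p_mat : Poly mat := by
  have hn : UPoly (fun φ : F3 => φ.length) := UPoly.length Poly.id
  have hv : UPoly (fun φ : F3 => nv φ.length) :=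
    UPoly.add (UPoly.add (UPoly.const 8) (UPoly.mul (UPoly.const 31) hn))
      (UPoly.mul (UPoly.const 18) (UPoly.mul hn hn))
  refine NPC.Poly.map (F := fun (φ : F3) (a : ℕ) => (List.range (nv φ.length)).map fun b =>
    decide ((a, b) ∈ edges φ ∨ (b, a) ∈ edges φ)) hv.range ?_
  refine NPC.Poly.map (F := fun (p : F3 × ℕ) (b : ℕ) =>
    decide ((p.2, b) ∈ edges p.1 ∨ (b, p.2) ∈ edges p.1))
    (hv.comp (Poly.fst Poly.id)).range ?_
  have he : Poly (fun p : (F3 × ℕ) × ℕ => edges p.1.1) :=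
    pa_edges.comp (Poly.fst (Poly.fst Poly.id))
  have ha : Poly (fun p : (F3 × ℕ) × ℕ => p.1.2) := Poly.snd (Poly.fst Poly.id)
  have hb : Poly (fun p : (F3 × ℕ) × ℕ => p.2) := Poly.snd Poly.id
  refine (NPC.Poly.or (NPC.Poly.decide_mem (Poly.pair ha hb) he)
    (NPC.Poly.decide_mem (Poly.pair hb ha) he)).congr fun p => ?_
  rw [Bool.eq_iff_iff]
  simp only [Bool.or_eq_true, decide_eq_true_eq]

end Pool.Agent.W982.AT
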