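import Pool.Agent.W391.BGR.Stm

set_option autoImplicit false

namespace Pool.Agent.W948.BGRREL

open Pool.Agent.W391.BGR

section Gen
variable {G : Type} [Group G] (a t : G)

/-- the letter map in a general group -/
def f : Fin 8 → G :=
  ![a, a⁻¹, t⁻¹ * a * t, t⁻¹ * a⁻¹ * t, t * a * t⁻¹, t * a⁻¹ * t⁻¹, t, t⁻¹]

variable {a t} (h : t⁻¹ * a⁻¹ * t * a * (t⁻¹ * a * t) = a * a)
include h

theorem r11 : (t⁻¹ * a⁻¹ * t) * a = a * (a * (t⁻¹ * a⁻¹ * t)) := by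
  calc (t⁻¹ * a⁻¹ * t) * a
      = (t⁻¹ * a⁻¹ * t * a * (t⁻¹ * a * t)) * (t⁻¹ * a⁻¹ * t) := by group
    _ = a * (a * (t⁻¹ * a⁻¹ * t)) := by rw [h]; group

theorem r12 : (t⁻¹ * a⁻¹ * t) * a⁻¹ = a⁻¹ * (a⁻¹ * (t⁻¹ * a⁻¹ * t)) := by
  calc (t⁻¹ * a⁻¹ * t) * a⁻¹
      = a⁻¹ * (a⁻¹ * (a * (a * (t⁻¹ * a⁻¹ * t)))) * a⁻¹ := by group
    _ = a⁻¹ * (a⁻¹ * ((t⁻¹ * a⁻¹ * t) * a)) * a⁻¹ := by rw [r11 h]
    _ = a⁻¹ * (a⁻¹ * (t⁻¹ * a⁻¹ * t)) := by group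

theorem r13 : (t⁻¹ * a * t) * (a * a) = a * (t⁻¹ * a * t) := by
  rw [← h]; group

theorem r14 : (t⁻¹ * a * t) * a⁻¹ = a⁻¹ * ((t⁻¹ * a * t) * a) := by
  calc (t⁻¹ * a * t) * a⁻¹ = a⁻¹ * (a * (t⁻¹ * a * t)) * a⁻¹ := by group
    _ = a⁻¹ * ((t⁻¹ * a * t) * (a * a)) * a⁻¹ := by rw [r13 h]
    _ = a⁻¹ * ((t⁻¹ * a * t) * a) := by group

theorem r5 : (t * a * t⁻¹) * a = a * ((t * a * t⁻¹) * (t * a * t⁻¹)) := by
  calc (t * a * t⁻¹) * a = a * t * (t⁻¹ * a⁻¹ * t * a * (t⁻¹ * a * t)) * t⁻¹ := by group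
    _ = a * t * (a * a) * t⁻¹ := by rw [h]
    _ = _ := by group

theorem hinv : t⁻¹ * a⁻¹ * t * a⁻¹ * (t⁻¹ * a * t) = a⁻¹ * a⁻¹ := by
  calc t⁻¹ * a⁻¹ * t * a⁻¹ * (t⁻¹ * a * t)
      = (t⁻¹ * a⁻¹ * t * a * (t⁻¹ * a * t))⁻¹ := by group
    _ = (a * a)⁻¹ := by rw [h]
    _ = a⁻¹ * a⁻¹ := by group

theorem r6 : (t * a⁻¹ * t⁻¹) * a = a * ((t * a⁻¹ * t⁻¹) * (t * a⁻¹ * t⁻¹)) := by
  calc (t * a⁻¹ * t⁻¹) * a = a * t * (t⁻¹ * a⁻¹ * t * a⁻¹ * (t⁻¹ * a * t)) * t⁻¹ := by group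
    _ = a * t * (a⁻¹ * a⁻¹) * t⁻¹ := by rw [hinv h]
    _ = _ := by group

theorem r7 : (t * a * t⁻¹) * ((t * a * t⁻¹) * a⁻¹) = a⁻¹ * (t * a * t⁻¹) := by
  calc (t * a * t⁻¹) * ((t * a * t⁻¹) * a⁻¹) = t * (a * a) * t⁻¹ * a⁻¹ := by group
    _ = t * (t⁻¹ * a⁻¹ * t * a * (t⁻¹ * a * t)) * t⁻¹ * a⁻¹ := by rw [h]
    _ = _ := by group

theorem r8 : (t * a⁻¹ * t⁻¹) * a⁻¹ = (t * a * t⁻¹) * (a⁻¹ * (t * a⁻¹ * t⁻¹)) := by
  calc (t * a⁻¹ * t⁻¹) * a⁻¹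
      = (t * a⁻¹ * t⁻¹) * (a⁻¹ * (t * a * t⁻¹)) * (t * a⁻¹ * t⁻¹) := by group
    _ = (t * a⁻¹ * t⁻¹) * ((t * a * t⁻¹) * ((t * a * t⁻¹) * a⁻¹)) * (t * a⁻¹ * t⁻¹) := by
        rw [r7 h]
    _ = _ := by group

theorem gen : ∀ p ∈ RR, (p.1.map (f a t)).prod = (p.2.map (f a t)).prod := by
  have e0 : f a t 0 = a := rfl
  have e1 : f a t 1 = a⁻¹ := rfl
  have e2 : f a t 2 = t⁻¹ * a * t := rfl
  have e3 : f a t 3 = t⁻¹ * a⁻¹ * t := rfl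
  have e4 : f a t 4 = t * a * t⁻¹ := rfl
  have e5 : f a t 5 = t * a⁻¹ * t⁻¹ := rfl
  have e6 : f a t 6 = t := rfl
  have e7 : f a t 7 = t⁻¹ := rfl
  intro p hp
  simp only [RR, RA, RB, RT, Finset.mem_union, Finset.mem_insert, Finset.mem_singleton] at hp
  rcases hp with (hp | hp) | hp
  · rcases hp with rfl | rfl | rfl | rfl | rfl | rfl | rfl | rfl <;>
      simp only [List.map_cons, List.map_nil, List.prod_cons, List.prod_nil, mul_one,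
        e0, e1, e4, e5]
    · group
    · group
    · group
    · group
    · exact r5 h
    · exact r6 h
    · exact r7 h
    · exact r8 h
  · rcases hp with rfl | rfl | rfl | rfl | rfl | rfl <;>
      simp only [List.map_cons, List.map_nil, List.prod_cons, List.prod_nil, mul_one,
        e0, e1, e2, e3]
    · group
    · group
    · exact r11 h
    · exact r12 h
    · exact r13 h
    · exact r14 h
  · rcases hp with rfl | rfl | rfl | rfl | rfl | rfl | rfl | rfl | rfl | rfl <;>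
      simp only [List.map_cons, List.map_nil, List.prod_cons, List.prod_nil, mul_one,
        e0, e1, e2, e3, e4, e5, e6, e7] <;> group

end Gen

theorem hrel : gt⁻¹ * ga⁻¹ * gt * ga * (gt⁻¹ * ga * gt) = ga * ga := by
  have h : (PresentedGroup.mk ({rel} : Set (FreeGroup (Fin 2)))) rel = 1 :=
    PresentedGroup.one_of_mem (Set.mem_singleton rel)
  have h2 : (gt⁻¹ * ga⁻¹ * gt) * ga * (gt⁻¹ * ga * gt) * (ga ^ 2)⁻¹ = 1 := h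
  have h3 := mul_inv_eq_one.mp h2
  rw [h3, sq]

theorem main1 : REL := gen hrel

theorem main2 : ONTO := by
  intro g
  obtain ⟨x, rfl⟩ := PresentedGroup.mk_surjective _ g
  induction x using FreeGroup.induction_on with
  | C1 => exact ⟨[], by simp⟩
  | of i =>
    fin_cases i
    · exact ⟨[0], by simp [phi]; rfl⟩
    · exact ⟨[6], by simp [phi]; rfl⟩
  | inv_of i _ =>
    fin_cases i
    · exact ⟨[1], by simp [phi]; rfl⟩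
    · exact ⟨[7], by simp [phi]; rfl⟩
  | mul x y hx hy =>
    obtain ⟨u, hu⟩ := hx
    obtain ⟨v, hv⟩ := hy
    exact ⟨u ++ v, by rw [List.map_append, List.prod_append, hu, hv, map_mul]⟩

end Pool.Agent.W948.BGRREL
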